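import Mathlib

set_option autoImplicit false

/-!
A Littlewood-Offord bound from Sperner's theorem.
-/

namespace RTIso

open Finset

theorem central_sq (n : ℕ) : (Nat.centralBinom n) ^ 2 * (3 * n + 1) ≤ 16 ^ n := by
  induction n with
  | zero => simp
  | succ n ih =>
    have h := Nat.succ_mul_centralBinom_succ n
    -- (n+1) * centralBinom (n+1) = 2 * (2n+1) * centralBinom n
    have h1 : ((n + 1) * Nat.centralBinom (n + 1)) ^ 2 = (2 * (2 * n + 1) * Nat.centralBinom n) ^ 2 := by
      rw [h]
    have key : (n + 1) ^ 2 * ((Nat.centralBinom (n + 1)) ^ 2 * (3 * (n + 1) + 1) * (3 * n + 1)) ≤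
        (n + 1) ^ 2 * (16 ^ (n + 1) * (3 * n + 1)) := by
      calc (n + 1) ^ 2 * ((Nat.centralBinom (n + 1)) ^ 2 * (3 * (n + 1) + 1) * (3 * n + 1))
          = ((n + 1) * Nat.centralBinom (n + 1)) ^ 2 * (3 * (n + 1) + 1) * (3 * n + 1) := by ring
        _ = (2 * (2 * n + 1) * Nat.centralBinom n) ^ 2 * (3 * (n + 1) + 1) * (3 * n + 1) := by rw [h1]
        _ = (Nat.centralBinom n ^ 2 * (3 * n + 1)) * (4 * (2 * n + 1) ^ 2 * (3 * n + 4)) := by ring
        _ ≤ 16 ^ n * (4 * (4 * (n + 1) ^ 2 * (3 * n + 1))) := by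
            apply Nat.mul_le_mul ih
            nlinarith
        _ = (n + 1) ^ 2 * (16 ^ (n + 1) * (3 * n + 1)) := by ring
    have h2 := Nat.le_of_mul_le_mul_left key (by positivity)
    exact Nat.le_of_mul_le_mul_right h2 (by positivity)

theorem choose_half (g : ℕ) (hg : 0 < g) :
    (g.choose (g / 2) : ℝ) ≤ 2 ^ g / Real.sqrt g := by
  rw [le_div_iff₀ (Real.sqrt_pos.2 (by exact_mod_cast hg))]
  have h0 : (0:ℝ) ≤ (g.choose (g / 2) : ℝ) * Real.sqrt g := by positivity
  have h1 : ((g.choose (g / 2) : ℝ) * Real.sqrt g) ^ 2 ≤ ((2:ℝ) ^ g) ^ 2 := by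
    rw [mul_pow, Real.sq_sqrt (by positivity)]
    have : (g.choose (g / 2)) ^ 2 * g ≤ (2 ^ g) ^ 2 := by
      rcases Nat.even_or_odd' g with ⟨m, rfl | rfl⟩
      · have hm := central_sq m
        unfold Nat.centralBinom at hm
        have e : 2 * m / 2 = m := by omega
        rw [e]
        calc (2 * m).choose m ^ 2 * (2 * m) ≤ (2 * m).choose m ^ 2 * (3 * m + 1) := by
              apply Nat.mul_le_mul_left; omega
          _ ≤ 16 ^ m := hm
          _ = (2 ^ (2 * m)) ^ 2 := by rw [← pow_mul, show 2 * m * 2 = 4 * m by ring, pow_mul]; norm_num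
      · have hm := central_sq (m + 1)
        have e : (2 * m + 1) / 2 = m := by omega
        rw [e]
        have e2 : Nat.centralBinom (m + 1) = 2 * (2 * m + 1).choose m := by
          unfold Nat.centralBinom
          rw [show 2 * (m + 1) = (2 * m + 1) + 1 by ring, Nat.choose_succ_succ]
          have : (2 * m + 1).choose m.succ = (2 * m + 1).choose m := Nat.choose_symm_half m
          rw [this]
          ring
        rw [e2] at hm
        have : 4 * ((2 * m + 1).choose m ^ 2 * (2 * m + 1)) ≤ 4 * (2 ^ (2 * m + 1)) ^ 2 := by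
          calc 4 * ((2 * m + 1).choose m ^ 2 * (2 * m + 1))
              ≤ (2 * (2 * m + 1).choose m) ^ 2 * (3 * (m + 1) + 1) := by
                rw [mul_pow]
                have : (2 * m + 1) ≤ (3 * (m + 1) + 1) := by omega
                calc 4 * ((2 * m + 1).choose m ^ 2 * (2 * m + 1))
                    = 2 ^ 2 * (2 * m + 1).choose m ^ 2 * (2 * m + 1) := by ring
                  _ ≤ _ := Nat.mul_le_mul_left _ this
            _ ≤ 16 ^ (m + 1) := hm
            _ = 4 * (2 ^ (2 * m + 1)) ^ 2 := by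
              rw [← pow_mul, show (2 * m + 1) * 2 = 4 * m + 2 by ring, pow_add 2, pow_mul, pow_succ]
              norm_num
              ring
        exact Nat.le_of_mul_le_mul_left this (by norm_num)
    exact_mod_cast this
  exact (pow_le_pow_iff_left₀ h0 (by positivity) two_ne_zero).1 h1

variable {ι : Type*} [Fintype ι] [DecidableEq ι]

/-- signed sum -/
noncomputable def ss (a : ι → ℝ) (P : Finset ι) : ℝ := ∑ i, if i ∈ P then a i else -a i

theorem ss_sub (a : ι → ℝ) (P Q : Finset ι) (h : P ⊆ Q) :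
    ss a Q - ss a P = 2 * ∑ i ∈ Q \ P, a i := by
  unfold ss
  rw [← Finset.sum_sub_distrib, Finset.mul_sum]
  rw [← Finset.sum_subset (Finset.subset_univ (Q \ P))]
  · refine Finset.sum_congr rfl ?_
    intro i hi
    rw [Finset.mem_sdiff] at hi
    rw [if_pos hi.1, if_neg hi.2]; ring
  · intro i _ hi
    rw [Finset.mem_sdiff] at hi
    by_cases h1 : i ∈ P
    · rw [if_pos (h h1), if_pos h1]; ring
    · have : i ∉ Q := fun h2 => hi ⟨h2, h1⟩
      rw [if_neg this, if_neg h1]; ring

theorem lo_inner (a : ι → ℝ) (A : ℝ) (hA : 0 < A) (ha : ∀ i, 0 ≤ a i) (G : Finset ι)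
    (hG : ∀ i ∈ G, A ≤ a i) (u : ℝ) (P0 : Finset ι) (hP0 : Disjoint P0 G) :
    ((G.powerset.filter (fun P1 => u ≤ ss a (P0 ∪ P1) ∧ ss a (P0 ∪ P1) < u + 2 * A)).card) ≤
      G.card.choose (G.card / 2) := by
  classical
  set 𝒜 : Finset (Finset G) := (Finset.univ : Finset (Finset G)).filter
    (fun P1 => u ≤ ss a (P0 ∪ P1.map (Function.Embedding.subtype _)) ∧
      ss a (P0 ∪ P1.map (Function.Embedding.subtype _)) < u + 2 * A) with h𝒜
  have hanti : IsAntichain (· ⊆ ·) (𝒜 : Set (Finset G)) := by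
    intro P hP Q hQ hne hsub
    rw [h𝒜, Finset.coe_filter, Set.mem_ofPred_eq] at hP hQ
    have h1 : P0 ∪ P.map (Function.Embedding.subtype (· ∈ G)) ⊆ P0 ∪ Q.map (Function.Embedding.subtype (· ∈ G)) :=
      Finset.union_subset_union_right (Finset.map_subset_map.2 hsub)
    have h2 := ss_sub a _ _ h1
    obtain ⟨i, hiQ, hiP⟩ : ∃ i ∈ Q, i ∉ P := by
      by_contra hcon
      push Not at hcon
      exact hne (Finset.Subset.antisymm hsub hcon)
    have h3 : A ≤ ∑ i ∈ (P0 ∪ Q.map (Function.Embedding.subtype (· ∈ G))) \ (P0 ∪ P.map (Function.Embedding.subtype (· ∈ G))), a i := by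
      have hi : (i : ι) ∈ (P0 ∪ Q.map (Function.Embedding.subtype (· ∈ G))) \ (P0 ∪ P.map (Function.Embedding.subtype (· ∈ G))) := by
        rw [Finset.mem_sdiff]
        constructor
        · apply Finset.mem_union_right
          exact Finset.mem_map.2 ⟨i, hiQ, rfl⟩
        · intro hcon
          rw [Finset.mem_union] at hcon
          rcases hcon with hcon | hcon
          · exact (Finset.disjoint_left.1 hP0 hcon) i.2
          · obtain ⟨j, hj, hji⟩ := Finset.mem_map.1 hcon
            have : j = i := Subtype.ext hji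
            exact hiP (this ▸ hj)
      calc A ≤ a i := hG i i.2
        _ ≤ _ := Finset.single_le_sum (fun j _ => ha j) hi
    have := hP.2.1
    have := hQ.2.2
    linarith
  have hsp := hanti.sperner
  rw [Fintype.card_coe] at hsp
  refine le_trans ?_ hsp
  apply Finset.card_le_card_of_surjOn (fun P => P.map (Function.Embedding.subtype (· ∈ G)))
  intro P1 hP1
  rw [Finset.coe_filter, Set.mem_ofPred_eq, Finset.mem_powerset] at hP1
  refine ⟨P1.subtype (· ∈ G), ?_, ?_⟩
  · rw [h𝒜, Finset.coe_filter, Set.mem_ofPred_eq]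
    have : (P1.subtype (· ∈ G)).map (Function.Embedding.subtype (· ∈ G)) = P1 := by
      rw [Finset.subtype_map]
      exact Finset.filter_true_of_mem (fun x hx => hP1.1 hx)
    rw [this]
    exact ⟨Finset.mem_univ _, hP1.2⟩
  · show (P1.subtype (· ∈ G)).map (Function.Embedding.subtype (· ∈ G)) = P1
    rw [Finset.subtype_map]
    exact Finset.filter_true_of_mem (fun x hx => hP1.1 hx)

theorem lo_one (a : ι → ℝ) (A : ℝ) (hA : 0 < A) (ha : ∀ i, 0 ≤ a i) (G : Finset ι)
    (hG : ∀ i ∈ G, A ≤ a i) (u : ℝ) :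
    (((Finset.univ : Finset (Finset ι)).filter (fun P => u ≤ ss a P ∧ ss a P < u + 2 * A)).card) ≤
      2 ^ (Fintype.card ι - G.card) * G.card.choose (G.card / 2) := by
  classical
  have hmaps : ∀ P ∈ (Finset.univ : Finset (Finset ι)).filter (fun P => u ≤ ss a P ∧ ss a P < u + 2 * A),
      P \ G ∈ (Gᶜ).powerset := by
    intro P _
    rw [Finset.mem_powerset]
    intro i hi
    rw [Finset.mem_sdiff] at hi
    rw [Finset.mem_compl]; exact hi.2
  rw [Finset.card_eq_sum_card_fiberwise hmaps]
  calc ∑ b ∈ (Gᶜ).powerset, _ ≤ ∑ b ∈ (Gᶜ).powerset, G.card.choose (G.card / 2) := by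
        refine Finset.sum_le_sum ?_
        intro P0 hP0
        rw [Finset.mem_powerset] at hP0
        have hdis : Disjoint P0 G := by
          rw [Finset.disjoint_left]
          intro i hi hiG
          exact (Finset.mem_compl.1 (hP0 hi)) hiG
        refine le_trans ?_ (lo_inner a A hA ha G hG u P0 hdis)
        apply Finset.card_le_card_of_injOn (fun P => P ∩ G)
        · intro P hP
          rw [Finset.coe_filter, Set.mem_ofPred_eq, Finset.mem_filter] at hP
          rw [Finset.coe_filter, Set.mem_ofPred_eq, Finset.mem_powerset]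
          have e : P0 ∪ (P ∩ G) = P := by
            rw [← hP.2]
            exact Finset.sdiff_union_inter P G
          simp only
          rw [e]
          exact ⟨Finset.inter_subset_right, hP.1.2⟩
        · intro P hP Q hQ hPQ
          rw [Finset.coe_filter, Set.mem_ofPred_eq, Finset.mem_filter] at hP hQ
          simp only at hPQ
          rw [← Finset.sdiff_union_inter P G, ← Finset.sdiff_union_inter Q G, hP.2, hQ.2, hPQ]
    _ = _ := by
        rw [Finset.sum_const, Finset.card_powerset, Finset.card_compl, smul_eq_mul]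

theorem lo (a : ι → ℝ) (A : ℝ) (hA : 0 < A) (ha : ∀ i, 0 ≤ a i) (G : Finset ι)
    (hG : ∀ i ∈ G, A ≤ a i) (hg : 0 < G.card) (t : ℝ) (ht : 0 ≤ t) :
    (((Finset.univ : Finset (Finset ι)).filter (fun P => |ss a P| ≤ t)).card : ℝ) ≤
      2 ^ (Fintype.card ι) * ((t / A + 1) / Real.sqrt G.card) := by
  classical
  set N : ℕ := ⌊t / A⌋₊ + 1 with hN
  have hNt : t < A * N := by
    have := Nat.lt_floor_add_one (t / A)
    rw [div_lt_iff₀ hA] at this
    rw [hN]; push_cast; linarith
  have hcov : (Finset.univ : Finset (Finset ι)).filter (fun P => |ss a P| ≤ t) ⊆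
      (Finset.range N).biUnion (fun j => (Finset.univ : Finset (Finset ι)).filter
        (fun P => (-t + 2 * A * j) ≤ ss a P ∧ ss a P < (-t + 2 * A * j) + 2 * A)) := by
    intro P hP
    rw [Finset.mem_filter] at hP
    have h1 := abs_le.1 hP.2
    rw [Finset.mem_biUnion]
    have hnn : 0 ≤ (ss a P + t) / (2 * A) := by
      apply div_nonneg _ (by positivity)
      linarith [h1.1]
    refine ⟨⌊(ss a P + t) / (2 * A)⌋₊, ?_, ?_⟩
    · rw [Finset.mem_range, Nat.floor_lt hnn, div_lt_iff₀ (by positivity)]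
      nlinarith [h1.2]
    · rw [Finset.mem_filter]
      have h2 := Nat.floor_le hnn
      have h3 := Nat.lt_floor_add_one ((ss a P + t) / (2 * A))
      rw [le_div_iff₀ (by positivity)] at h2
      rw [div_lt_iff₀ (by positivity)] at h3
      refine ⟨Finset.mem_univ _, ?_, ?_⟩
      · linarith
      · linarith
  have h1 : (((Finset.univ : Finset (Finset ι)).filter (fun P => |ss a P| ≤ t)).card) ≤
      N * (2 ^ (Fintype.card ι - G.card) * G.card.choose (G.card / 2)) := by
    refine (Finset.card_le_card hcov).trans ?_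
    refine Finset.card_biUnion_le.trans ?_
    calc _ ≤ ∑ j ∈ Finset.range N, (2 ^ (Fintype.card ι - G.card) * G.card.choose (G.card / 2)) :=
          Finset.sum_le_sum (fun j _ => lo_one a A hA ha G hG _)
      _ = _ := by rw [Finset.sum_const, Finset.card_range, smul_eq_mul]
  have h2 : (((Finset.univ : Finset (Finset ι)).filter (fun P => |ss a P| ≤ t)).card : ℝ) ≤
      (N:ℝ) * ((2:ℝ) ^ (Fintype.card ι - G.card) * (G.card.choose (G.card / 2) : ℝ)) := by
    exact_mod_cast h1
  have h3 := choose_half G.card hg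
  have hGc : G.card ≤ Fintype.card ι := Finset.card_le_univ G
  have h4 : (2:ℝ) ^ (Fintype.card ι - G.card) * 2 ^ G.card = 2 ^ (Fintype.card ι) := by
    rw [← pow_add, Nat.sub_add_cancel hGc]
  have hNr : (N:ℝ) ≤ t / A + 1 := by
    rw [hN]; push_cast
    have := Nat.floor_le (show 0 ≤ t / A by positivity)
    linarith
  have hsq : 0 < Real.sqrt G.card := Real.sqrt_pos.2 (by exact_mod_cast hg)
  calc _ ≤ _ := h2
    _ ≤ (t / A + 1) * ((2:ℝ) ^ (Fintype.card ι - G.card) * (2 ^ G.card / Real.sqrt G.card)) := by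
        gcongr
    _ = (t / A + 1) * (((2:ℝ) ^ (Fintype.card ι - G.card) * 2 ^ G.card) / Real.sqrt G.card) := by ring
    _ = _ := by rw [h4]; ring

end RTIso
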