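import Pool.Agent.Helper66.RT.Iso
import Pool.Agent.Helper66.RT.LO

set_option autoImplicit false

/-!
Two independent random positions have inner product above a small threshold with probability
almost one half.
-/

namespace RTIso

open Finset

/-- inner product -/
noncomputable def ip (R k : ℕ) (x y : Fin k → Fin (2 * R + 1)) : ℝ :=
  ∑ i, val R (x i) * val R (y i)

theorem val_rev (R : ℕ) (x : Fin (2 * R + 1)) : val R (Fin.rev x) = -val R x := by
  unfold val
  have h := Fin.val_rev x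
  have hx := x.2
  have : ((Fin.rev x : Fin (2 * R + 1)) : ℕ) + (x : ℕ) = 2 * R := by omega
  have h2 : (((Fin.rev x : Fin (2 * R + 1)) : ℕ) : ℝ) + ((x : ℕ) : ℝ) = 2 * R := by exact_mod_cast this
  linarith

theorem gw_rev (s : ℝ) (R : ℕ) (x : Fin (2 * R + 1)) : gw s R (Fin.rev x) = gw s R x := by
  unfold gw
  rw [val_rev]
  congr 2
  ring

/-- flip the coordinates in `P` -/
def flip {R k : ℕ} (P : Finset (Fin k)) (x : Fin k → Fin (2 * R + 1)) : Fin k → Fin (2 * R + 1) :=
  fun i => if i ∈ P then Fin.rev (x i) else x i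

theorem flip_flip {R k : ℕ} (P : Finset (Fin k)) (x : Fin k → Fin (2 * R + 1)) :
    flip P (flip P x) = x := by
  funext i
  unfold flip
  split_ifs <;> simp

theorem pw_flip (s : ℝ) (R k : ℕ) (P : Finset (Fin k)) (x : Fin k → Fin (2 * R + 1)) :
    pw s R k (flip P x) = pw s R k x := by
  unfold pw flip
  refine Finset.prod_congr rfl ?_
  intro i _
  split_ifs
  · rw [gw_rev]
  · rfl

theorem sum_flip {R k : ℕ} (P : Finset (Fin k)) (f : (Fin k → Fin (2 * R + 1)) → ℝ) :
    ∑ x, f (flip P x) = ∑ x, f x :=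
  Fintype.sum_equiv ⟨flip P, flip P, flip_flip P, flip_flip P⟩ _ _ (fun _ => rfl)

theorem ip_flip {R k : ℕ} (P : Finset (Fin k)) (x y : Fin k → Fin (2 * R + 1)) :
    ip R k (flip P x) y = - ss (fun i => val R (x i) * val R (y i)) P := by
  unfold ip ss flip
  rw [← Finset.sum_neg_distrib]
  refine Finset.sum_congr rfl ?_
  intro i _
  split_ifs
  · rw [val_rev]; ring
  · ring

theorem card_ss_abs {k : ℕ} (z : Fin k → ℝ) (t : ℝ) :
    ((Finset.univ : Finset (Finset (Fin k))).filter (fun P => |ss z P| ≤ t)).card =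
    ((Finset.univ : Finset (Finset (Fin k))).filter (fun P => |ss (fun i => |z i|) P| ≤ t)).card := by
  classical
  set N : Finset (Fin k) := Finset.univ.filter (fun i => z i < 0) with hN
  have key : ∀ P, ss (fun i => |z i|) (symmDiff P N) = ss z P := by
    intro P
    unfold ss
    refine Finset.sum_congr rfl ?_
    intro i _
    have hmem : i ∈ symmDiff P N ↔ ((i ∈ P ∧ i ∉ N) ∨ (i ∈ N ∧ i ∉ P)) := Finset.mem_symmDiff
    have hiN : i ∈ N ↔ z i < 0 := by rw [hN]; simp
    by_cases h1 : i ∈ P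
    · by_cases h2 : z i < 0
      · have : ¬ ((i ∈ P ∧ i ∉ N) ∨ (i ∈ N ∧ i ∉ P)) := by
          rintro (⟨_, h⟩ | ⟨_, h⟩)
          · exact h (hiN.2 h2)
          · exact h h1
        rw [if_neg (fun h => this (hmem.1 h)), if_pos h1]; simp only; rw [abs_of_neg h2]; ring
      · have : ((i ∈ P ∧ i ∉ N) ∨ (i ∈ N ∧ i ∉ P)) := Or.inl ⟨h1, fun h => h2 (hiN.1 h)⟩
        rw [if_pos (hmem.2 this), if_pos h1]; simp only; rw [abs_of_nonneg (not_lt.1 h2)]
    · by_cases h2 : z i < 0
      · have : ((i ∈ P ∧ i ∉ N) ∨ (i ∈ N ∧ i ∉ P)) := Or.inr ⟨hiN.2 h2, h1⟩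
        rw [if_pos (hmem.2 this), if_neg h1]; simp only; rw [abs_of_neg h2]
      · have : ¬ ((i ∈ P ∧ i ∉ N) ∨ (i ∈ N ∧ i ∉ P)) := by
          rintro (⟨h, _⟩ | ⟨h, _⟩)
          · exact h1 h
          · exact h2 (hiN.1 h)
        rw [if_neg (fun h => this (hmem.1 h)), if_neg h1]; simp only; rw [abs_of_nonneg (not_lt.1 h2)]
  apply Finset.card_bij (fun P _ => symmDiff P N)
  · intro P hP
    rw [Finset.mem_filter] at hP ⊢
    rw [key]
    exact ⟨Finset.mem_univ _, hP.2⟩
  · intro P _ Q _ h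
    exact symmDiff_left_injective N h
  · intro Q hQ
    refine ⟨symmDiff Q N, ?_, ?_⟩
    · rw [Finset.mem_filter] at hQ ⊢
      rw [← key (symmDiff Q N), symmDiff_symmDiff_cancel_right]
      exact ⟨Finset.mem_univ _, hQ.2⟩
    · exact symmDiff_symmDiff_cancel_right _ _

/-- averaging over the signs -/
theorem flip_avg (s : ℝ) (R k : ℕ) (t : ℝ) :
    (2:ℝ) ^ k * ∑ x, ∑ y, (if |ip R k x y| ≤ t then pw s R k x * pw s R k y else 0) =
    ∑ x, ∑ y, (((Finset.univ : Finset (Finset (Fin k))).filter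
      (fun P => |ss (fun i => |val R (x i) * val R (y i)|) P| ≤ t)).card : ℝ) *
        (pw s R k x * pw s R k y) := by
  have h1 : ∀ P : Finset (Fin k), ∑ x, ∑ y, (if |ip R k x y| ≤ t then pw s R k x * pw s R k y else 0) =
      ∑ x, ∑ y, (if |ss (fun i => val R (x i) * val R (y i)) P| ≤ t then pw s R k x * pw s R k y else 0) := by
    intro P
    rw [← sum_flip P]
    refine Finset.sum_congr rfl ?_
    intro x _
    refine Finset.sum_congr rfl ?_
    intro y _
    rw [ip_flip, abs_neg, pw_flip]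
  have h2 : (2:ℝ) ^ k * ∑ x, ∑ y, (if |ip R k x y| ≤ t then pw s R k x * pw s R k y else 0) =
      ∑ P : Finset (Fin k), ∑ x, ∑ y,
        (if |ss (fun i => val R (x i) * val R (y i)) P| ≤ t then pw s R k x * pw s R k y else 0) := by
    rw [← Finset.sum_congr rfl (fun P _ => h1 P)]
    rw [Finset.sum_const, Finset.card_univ, Fintype.card_finset, Fintype.card_fin, nsmul_eq_mul]
    push_cast
    rfl
  rw [h2, Finset.sum_comm]
  refine Finset.sum_congr rfl ?_
  intro x _
  rw [Finset.sum_comm]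
  refine Finset.sum_congr rfl ?_
  intro y _
  rw [← card_ss_abs, Finset.card_filter]
  push_cast
  rw [Finset.sum_mul]
  refine Finset.sum_congr rfl ?_
  intro P _
  split_ifs <;> simp

/-- product structure of double sums -/
theorem sum_sum_prod {α : Type*} [Fintype α] (k : ℕ) (f : α → α → ℝ) :
    ∑ x : Fin k → α, ∑ y : Fin k → α, ∏ i, f (x i) (y i) = (∑ a, ∑ b, f a b) ^ k := by
  classical
  have h1 : ∀ x : Fin k → α, ∑ y : Fin k → α, ∏ i, f (x i) (y i) = ∏ i, ∑ b, f (x i) b := by
    intro x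
    have := Finset.prod_univ_sum (fun _ : Fin k => (Finset.univ : Finset α)) (fun i b => f (x i) b)
    rw [Fintype.piFinset_univ] at this
    rw [this]
  rw [Finset.sum_congr rfl (fun x _ => h1 x)]
  have := Finset.prod_univ_sum (fun _ : Fin k => (Finset.univ : Finset α)) (fun _ a => ∑ b, f a b)
  rw [Fintype.piFinset_univ] at this
  rw [← this]
  simp

/-- mass of the large coordinates -/
theorem large_mass (s : ℕ) (hs : 1 ≤ s) :
    (3 / 10 : ℝ) ≤ ∑ a : Fin (2 * s + 1), (if (s:ℝ) / 4 ≤ |val s a| then gw s s a / mass s s else 0) := by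
  have hm := mass_pos (s:ℝ) s
  have hspos : (0:ℝ) < s := by exact_mod_cast hs
  have e1 : ∑ a : Fin (2 * s + 1), (if (s:ℝ) / 4 ≤ |val s a| then gw s s a / mass s s else 0) =
      (∑ j ∈ Icc (-(s : ℤ)) s, (if (s:ℝ) / 4 ≤ |(j:ℝ)| then Real.exp (-(j : ℝ) ^ 2 / (2 * (s:ℝ) ^ 2)) else 0)) / mass s s := by
    rw [← sum_Fin s (fun j => (if (s:ℝ) / 4 ≤ |(j:ℝ)| then Real.exp (-(j : ℝ) ^ 2 / (2 * (s:ℝ) ^ 2)) else 0)), Finset.sum_div]
    refine Finset.sum_congr rfl ?_
    intro a _
    unfold gw val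
    push_cast
    split_ifs <;> simp
  rw [e1, le_div_iff₀ hm]
  have hmass : mass s s ≤ 2 * s + 1 := by
    unfold mass
    calc _ ≤ ∑ j ∈ Icc (-(s : ℤ)) s, (1:ℝ) := by
          refine Finset.sum_le_sum ?_
          intro j _
          rw [Real.exp_le_one_iff]
          apply div_nonpos_of_nonpos_of_nonneg
          · nlinarith [sq_nonneg (j:ℝ)]
          · positivity
      _ = 2 * s + 1 := by
          rw [Finset.sum_const, Int.card_Icc, nsmul_eq_mul, mul_one]
          have : (((s:ℤ) + 1 - -(s:ℤ)).toNat : ℤ) = 2 * s + 1 := by omega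
          have h2 : (((s:ℤ) + 1 - -(s:ℤ)).toNat : ℝ) = 2 * s + 1 := by exact_mod_cast this
          exact h2
  -- lower bound of the sum
  set m : ℕ := (s + 3) / 4 with hmdef
  have hm1 : (s:ℝ) / 4 ≤ m := by
    have : s ≤ 4 * m := by omega
    have h2 : (s:ℝ) ≤ 4 * m := by exact_mod_cast this
    linarith
  have hm2 : m ≤ s := by omega
  have hexp : (6 / 10 : ℝ) ≤ Real.exp (-(1/2)) := by
    have h1 : Real.exp (-(1/2)) = 1 / Real.exp (1/2) := by
      rw [Real.exp_neg]; simp
    rw [h1, le_div_iff₀ (Real.exp_pos _)]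
    have h2 : Real.exp (1/2) ^ 2 = Real.exp 1 := by
      rw [← Real.exp_nat_mul]; norm_num
    have h3 := Real.exp_one_lt_d9
    have h4 : Real.exp (1/2) ^ 2 < (1.65:ℝ) ^ 2 := by rw [h2]; norm_num at h3 ⊢; linarith
    have h5 : Real.exp (1/2) < 1.65 := lt_of_pow_lt_pow_left₀ 2 (by norm_num) h4
    linarith
  have hlow : ∀ j ∈ Icc (-(s:ℤ)) s, (6/10 : ℝ) ≤ Real.exp (-(j : ℝ) ^ 2 / (2 * (s:ℝ) ^ 2)) := by
    intro j hj
    rw [Finset.mem_Icc] at hj
    refine hexp.trans ?_
    apply Real.exp_le_exp.2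
    rw [le_div_iff₀ (by positivity)]
    have h1 : (j:ℝ) ≤ s := by exact_mod_cast hj.2
    have h2 : -(s:ℝ) ≤ j := by exact_mod_cast hj.1
    nlinarith
  have hsub : Icc (m:ℤ) s ∪ Icc (-(s:ℤ)) (-(m:ℤ)) ⊆ (Icc (-(s : ℤ)) s).filter (fun j : ℤ => (s:ℝ) / 4 ≤ |(j:ℝ)|) := by
    intro j hj
    rw [Finset.mem_union, Finset.mem_Icc, Finset.mem_Icc] at hj
    rw [Finset.mem_filter, Finset.mem_Icc]
    rcases hj with hj | hj
    · refine ⟨by omega, ?_⟩
      have h1 : (m:ℝ) ≤ j := by exact_mod_cast hj.1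
      have : (0:ℝ) ≤ m := Nat.cast_nonneg m
      rw [abs_of_nonneg (by linarith)]; linarith
    · refine ⟨by omega, ?_⟩
      have h1 : (j:ℝ) ≤ -m := by exact_mod_cast hj.2
      have : (0:ℝ) ≤ m := Nat.cast_nonneg m
      rw [abs_of_nonpos (by linarith)]; linarith
  have hmpos : 1 ≤ m := by omega
  have hcard : (Icc (m:ℤ) s ∪ Icc (-(s:ℤ)) (-(m:ℤ))).card = 2 * (s + 1 - m) := by
    rw [Finset.card_union_of_disjoint, Int.card_Icc, Int.card_Icc]
    · omega
    · rw [Finset.disjoint_left]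
      intro j hj1 hj2
      rw [Finset.mem_Icc] at hj1 hj2
      omega
  have hsum : (6/10 : ℝ) * (2 * (s + 1 - m : ℕ) : ℕ) ≤
      ∑ j ∈ Icc (-(s : ℤ)) s, (if (s:ℝ) / 4 ≤ |(j:ℝ)| then Real.exp (-(j : ℝ) ^ 2 / (2 * (s:ℝ) ^ 2)) else 0) := by
    rw [← Finset.sum_filter]
    calc (6/10 : ℝ) * (2 * (s + 1 - m : ℕ) : ℕ) = ∑ j ∈ (Icc (m:ℤ) s ∪ Icc (-(s:ℤ)) (-(m:ℤ))), (6/10:ℝ) := by
          rw [Finset.sum_const, hcard, nsmul_eq_mul]; ring
      _ ≤ ∑ j ∈ (Icc (m:ℤ) s ∪ Icc (-(s:ℤ)) (-(m:ℤ))), Real.exp (-(j : ℝ) ^ 2 / (2 * (s:ℝ) ^ 2)) := by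
          refine Finset.sum_le_sum ?_
          intro j hj
          have := hsub hj
          rw [Finset.mem_filter] at this
          exact hlow j this.1
      _ ≤ _ := by
          apply Finset.sum_le_sum_of_subset_of_nonneg hsub
          intro j _ _
          positivity
  have hcc : (3:ℝ) / 2 * s ≤ (2 * (s + 1 - m : ℕ) : ℕ) := by
    have h1 : 3 * s ≤ 2 * (2 * (s + 1 - m)) := by omega
    have h2 : (3:ℝ) * s ≤ 2 * ((2 * (s + 1 - m : ℕ) : ℕ) : ℝ) := by exact_mod_cast h1
    linarith
  have h1s : (1:ℝ) ≤ s := by exact_mod_cast hs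
  nlinarith

/-- few large products is unlikely -/
theorem few_large (s : ℕ) (hs : 1 ≤ s) (k g : ℕ) :
    ∑ x, ∑ y, (if ((Finset.univ : Finset (Fin k)).filter
      (fun i => (s:ℝ) ^ 2 / 16 ≤ |val s (x i) * val s (y i)|)).card < g then pw s s k x * pw s s k y else 0) ≤
      2 ^ g * (1 - 9 / 200 : ℝ) ^ k := by
  classical
  have hm := mass_pos (s:ℝ) s
  set q : Fin (2 * s + 1) → ℝ := fun a => gw s s a / mass s s with hq
  have hqpos : ∀ a, 0 < q a := fun a => div_pos (Real.exp_pos _) hm
  have hqsum : ∑ a, q a = 1 := by rw [hq, ← Finset.sum_div, sum_gw, div_self hm.ne']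
  set f : Fin (2 * s + 1) → Fin (2 * s + 1) → ℝ := fun a b =>
    (if (s:ℝ) ^ 2 / 16 ≤ |val s a * val s b| then 1 / 2 else 1) * (q a * q b) with hf
  have h1 : ∀ x y : Fin k → Fin (2 * s + 1),
      (if ((Finset.univ : Finset (Fin k)).filter
      (fun i => (s:ℝ) ^ 2 / 16 ≤ |val s (x i) * val s (y i)|)).card < g then pw s s k x * pw s s k y else 0) ≤
      2 ^ g * ∏ i, f (x i) (y i) := by
    intro x y
    have e : ∏ i, f (x i) (y i) = (1/2 : ℝ) ^ ((Finset.univ : Finset (Fin k)).filter
      (fun i => (s:ℝ) ^ 2 / 16 ≤ |val s (x i) * val s (y i)|)).card * (pw s s k x * pw s s k y) := by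
      rw [hf]
      simp only
      rw [Finset.prod_mul_distrib, Finset.prod_mul_distrib, Finset.prod_ite]
      simp only [Finset.prod_const, one_pow, mul_one]
      rfl
    rw [e]
    have hp : 0 < pw s s k x * pw s s k y := mul_pos (pw_pos _ _ _ _) (pw_pos _ _ _ _)
    split_ifs with hlt
    · set c := ((Finset.univ : Finset (Fin k)).filter
        (fun i => (s:ℝ) ^ 2 / 16 ≤ |val s (x i) * val s (y i)|)).card
      have : (1:ℝ) ≤ 2 ^ g * (1/2 : ℝ) ^ c := by
        have h3 : (2:ℝ) ^ g = 2 ^ (g - c) * 2 ^ c := by rw [← pow_add]; congr 1; omega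
        rw [h3, mul_assoc, ← mul_pow]
        norm_num
        exact one_le_pow₀ (by norm_num)
      rw [← mul_assoc]
      calc pw s s k x * pw s s k y = 1 * (pw s s k x * pw s s k y) := by ring
        _ ≤ _ := by gcongr
    · positivity
  refine (Finset.sum_le_sum (fun x _ => Finset.sum_le_sum (fun y _ => h1 x y))).trans ?_
  simp_rw [← Finset.mul_sum]
  rw [sum_sum_prod]
  have h2 : ∑ a, ∑ b, f a b ≤ 1 - 9/200 := by
    set L : Fin (2 * s + 1) → ℝ := fun a => if (s:ℝ) / 4 ≤ |val s a| then q a else 0 with hL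
    have hLs : (3/10:ℝ) ≤ ∑ a, L a := large_mass s hs
    have h3 : ∀ a b, f a b ≤ q a * q b - 1/2 * (L a * L b) := by
      intro a b
      rw [hf, hL]
      simp only
      have hqa := hqpos a
      have hqb := hqpos b
      by_cases ha : (s:ℝ) / 4 ≤ |val s a|
      · by_cases hb : (s:ℝ) / 4 ≤ |val s b|
        · have : (s:ℝ) ^ 2 / 16 ≤ |val s a * val s b| := by
            rw [abs_mul]
            have h0 : (0:ℝ) ≤ s / 4 := by positivity
            calc (s:ℝ) ^ 2 / 16 = (s / 4) * (s / 4) := by ring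
              _ ≤ _ := by gcongr
          rw [if_pos this, if_pos ha, if_pos hb]
          linarith
        · rw [if_neg hb, mul_zero, mul_zero, sub_zero]
          split_ifs
          · nlinarith [mul_pos hqa hqb]
          · linarith
      · rw [if_neg ha, zero_mul, mul_zero, sub_zero]
        split_ifs
        · nlinarith [mul_pos hqa hqb]
        · linarith
    calc ∑ a, ∑ b, f a b ≤ ∑ a, ∑ b, (q a * q b - 1/2 * (L a * L b)) :=
          Finset.sum_le_sum (fun a _ => Finset.sum_le_sum (fun b _ => h3 a b))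
      _ = (∑ a, q a) * (∑ b, q b) - 1/2 * ((∑ a, L a) * (∑ b, L b)) := by
          simp_rw [Finset.sum_sub_distrib, ← Finset.mul_sum]
          rw [Finset.sum_mul, Finset.sum_mul, Finset.mul_sum]
      _ ≤ 1 - 9/200 := by
          rw [hqsum]
          nlinarith
  have h4 : 0 ≤ ∑ a, ∑ b, f a b := by
    refine Finset.sum_nonneg (fun a _ => Finset.sum_nonneg (fun b _ => ?_))
    rw [hf]
    simp only
    have := hqpos a
    have := hqpos b
    positivity
  gcongr

/-- small ball bound -/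
theorem small_ball (s : ℕ) (hs : 1 ≤ s) (k : ℕ) (hk : 96 ≤ k) (th : ℝ) (hth : 0 ≤ th) :
    ∑ x, ∑ y, (if |ip s k x y| ≤ th * (s:ℝ) ^ 2 * Real.sqrt k then pw s s k x * pw s s k y else 0) ≤
      160 * th + 10 / Real.sqrt k + Real.exp (-(k:ℝ) / 40) := by
  classical
  set t : ℝ := th * (s:ℝ) ^ 2 * Real.sqrt k with ht
  have hspos : (0:ℝ) < s := by exact_mod_cast hs
  have hkpos : (0:ℝ) < k := by exact_mod_cast (by omega : 0 < k)
  have hsqk : 0 < Real.sqrt k := Real.sqrt_pos.2 hkpos
  have htnn : 0 ≤ t := by positivity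
  set g : ℕ := k / 48 with hg
  have hgk : (k:ℝ) / 96 ≤ g := by
    have : k ≤ 96 * g := by omega
    have : (k:ℝ) ≤ 96 * g := by exact_mod_cast this
    linarith
  have hgpos : (0:ℝ) < g := lt_of_lt_of_le (by positivity) hgk
  set A : ℝ := (s:ℝ) ^ 2 / 16 with hA
  have hApos : 0 < A := by positivity
  set B : ℝ := (t / A + 1) / Real.sqrt g with hB
  have hBnn : 0 ≤ B := by positivity
  -- pointwise bound on the averaged count
  have hpt : ∀ x y : Fin k → Fin (2 * s + 1),
      (((Finset.univ : Finset (Finset (Fin k))).filter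
      (fun P => |ss (fun i => |val s (x i) * val s (y i)|) P| ≤ t)).card : ℝ) *
        (pw s s k x * pw s s k y) ≤
      2 ^ k * (B * (pw s s k x * pw s s k y)) + 2 ^ k * (if ((Finset.univ : Finset (Fin k)).filter
      (fun i => (s:ℝ) ^ 2 / 16 ≤ |val s (x i) * val s (y i)|)).card < g then pw s s k x * pw s s k y else 0) := by
    intro x y
    have hp : 0 < pw s s k x * pw s s k y := mul_pos (pw_pos _ _ _ _) (pw_pos _ _ _ _)
    split_ifs with hlt
    · have hc : (((Finset.univ : Finset (Finset (Fin k))).filter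
        (fun P => |ss (fun i => |val s (x i) * val s (y i)|) P| ≤ t)).card : ℝ) ≤ 2 ^ k := by
        have := Finset.card_filter_le (Finset.univ : Finset (Finset (Fin k)))
          (fun P => |ss (fun i => |val s (x i) * val s (y i)|) P| ≤ t)
        rw [Finset.card_univ, Fintype.card_finset, Fintype.card_fin] at this
        exact_mod_cast this
      have : 0 ≤ 2 ^ k * (B * (pw s s k x * pw s s k y)) := by positivity
      nlinarith
    · rw [mul_zero, add_zero]
      push Not at hlt
      have hlo := lo (fun i => |val s (x i) * val s (y i)|) A hApos (fun i => abs_nonneg _)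
        ((Finset.univ : Finset (Fin k)).filter (fun i => (s:ℝ) ^ 2 / 16 ≤ |val s (x i) * val s (y i)|))
        (fun i hi => (Finset.mem_filter.1 hi).2)
        (lt_of_lt_of_le (by exact_mod_cast hgpos) hlt) t htnn
      rw [Fintype.card_fin] at hlo
      rw [show (2:ℝ) ^ k * (B * (pw s s k x * pw s s k y)) = (2 ^ k * B) * (pw s s k x * pw s s k y) by ring]
      apply mul_le_mul_of_nonneg_right _ hp.le
      refine hlo.trans ?_
      apply mul_le_mul_of_nonneg_left _ (by positivity)
      rw [hB]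
      apply div_le_div_of_nonneg_left (by positivity) (Real.sqrt_pos.2 hgpos)
      apply Real.sqrt_le_sqrt
      exact_mod_cast hlt
  have h1 := flip_avg (s:ℝ) s k t
  have h2 : (2:ℝ) ^ k * ∑ x, ∑ y, (if |ip s k x y| ≤ t then pw s s k x * pw s s k y else 0) ≤
      2 ^ k * B + 2 ^ k * (2 ^ g * (1 - 9 / 200 : ℝ) ^ k) := by
    rw [h1]
    calc _ ≤ ∑ x, ∑ y, (2 ^ k * (B * (pw s s k x * pw s s k y)) + 2 ^ k * (if ((Finset.univ : Finset (Fin k)).filter
      (fun i => (s:ℝ) ^ 2 / 16 ≤ |val s (x i) * val s (y i)|)).card < g then pw s s k x * pw s s k y else 0)) :=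
          Finset.sum_le_sum (fun x _ => Finset.sum_le_sum (fun y _ => hpt x y))
      _ = 2 ^ k * (B * ((∑ x, pw s s k x) * (∑ y, pw s s k y))) + 2 ^ k * (∑ x, ∑ y, (if ((Finset.univ : Finset (Fin k)).filter
      (fun i => (s:ℝ) ^ 2 / 16 ≤ |val s (x i) * val s (y i)|)).card < g then pw s s k x * pw s s k y else 0)) := by
          simp_rw [Finset.sum_add_distrib, ← Finset.mul_sum]
          rw [Finset.sum_mul]
      _ ≤ _ := by
          rw [sum_pw, mul_one, mul_one]
          have := few_large s hs k g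
          gcongr
  have h3 : ∑ x, ∑ y, (if |ip s k x y| ≤ t then pw s s k x * pw s s k y else 0) ≤
      B + 2 ^ g * (1 - 9 / 200 : ℝ) ^ k := by
    have hpos : (0:ℝ) < 2 ^ k := by positivity
    have : (2:ℝ) ^ k * ∑ x, ∑ y, (if |ip s k x y| ≤ t then pw s s k x * pw s s k y else 0) ≤
        2 ^ k * (B + 2 ^ g * (1 - 9 / 200 : ℝ) ^ k) := by rw [mul_add]; exact h2
    exact le_of_mul_le_mul_left this hpos
  refine h3.trans ?_
  have h4 : B ≤ 160 * th + 10 / Real.sqrt k := by
    rw [hB]
    have e : t / A = 16 * th * Real.sqrt k := by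
      rw [ht, hA]; field_simp
    rw [e]
    have hsg : Real.sqrt k / 10 ≤ Real.sqrt g := by
      have : Real.sqrt k / 10 = Real.sqrt (k / 100) := by
        rw [Real.sqrt_div hkpos.le, show (100:ℝ) = 10 ^ 2 by norm_num, Real.sqrt_sq (by norm_num)]
      rw [this]
      apply Real.sqrt_le_sqrt
      have : (k:ℝ) / 100 ≤ k / 96 := by
        apply div_le_div_of_nonneg_left hkpos.le (by norm_num) (by norm_num)
      linarith
    have hsg' : 0 < Real.sqrt k / 10 := by positivity
    calc (16 * th * Real.sqrt k + 1) / Real.sqrt g ≤ (16 * th * Real.sqrt k + 1) / (Real.sqrt k / 10) := by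
          apply div_le_div_of_nonneg_left (by positivity) hsg' hsg
      _ = 160 * th + 10 / Real.sqrt k := by field_simp; ring
  have h5 : (2:ℝ) ^ g * (1 - 9 / 200 : ℝ) ^ k ≤ Real.exp (-(k:ℝ) / 40) := by
    have a1 : (2:ℝ) ^ g ≤ Real.exp ((7/10) * (k / 48)) := by
      have hg2 : (g:ℝ) ≤ k / 48 := by
        have : 48 * g ≤ k := by omega
        have : (48:ℝ) * g ≤ k := by exact_mod_cast this
        linarith
      have h2e : (2:ℝ) ≤ Real.exp (7/10) := by
        have := Real.log_two_lt_d9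
        have h := Real.exp_log (show (0:ℝ) < 2 by norm_num)
        rw [← h]
        apply Real.exp_le_exp.2
        linarith
      calc (2:ℝ) ^ g ≤ (Real.exp (7/10)) ^ g := by gcongr
        _ = Real.exp (g * (7/10)) := by rw [← Real.exp_nat_mul]
        _ ≤ Real.exp ((7/10) * (k / 48)) := by
            apply Real.exp_le_exp.2
            nlinarith
    have a2 : (1 - 9 / 200 : ℝ) ^ k ≤ Real.exp (-(9/200) * k) := by
      have h := Real.add_one_le_exp (-(9/200):ℝ)
      calc (1 - 9 / 200 : ℝ) ^ k ≤ (Real.exp (-(9/200))) ^ k := by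
            apply pow_le_pow_left₀ (by norm_num)
            linarith
        _ = Real.exp (-(9/200) * k) := by rw [← Real.exp_nat_mul]; congr 1; ring
    calc (2:ℝ) ^ g * (1 - 9 / 200 : ℝ) ^ k ≤ Real.exp ((7/10) * (k / 48)) * Real.exp (-(9/200) * k) := by gcongr
      _ = Real.exp ((7/10) * (k / 48) + -(9/200) * k) := by rw [Real.exp_add]
      _ ≤ _ := by
          apply Real.exp_le_exp.2
          linarith
  linarith

theorem ip_univ_flip {R k : ℕ} (x y : Fin k → Fin (2 * R + 1)) :
    ip R k (flip Finset.univ x) y = - ip R k x y := by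
  rw [ip_flip]
  unfold ss ip
  simp

/-- the density of the cross relation -/
theorem density (s R k : ℕ) (t : ℝ) (ht : 0 ≤ t) :
    ∑ x, ∑ y, (if t < ip R k x y then pw s R k x * pw s R k y else 0) =
      (1 - ∑ x, ∑ y, (if |ip R k x y| ≤ t then pw s R k x * pw s R k y else 0)) / 2 := by
  have h1 : ∑ x, ∑ y, (if t < ip R k x y then pw s R k x * pw s R k y else 0) =
      ∑ x, ∑ y, (if t < - ip R k x y then pw s R k x * pw s R k y else 0) := by
    rw [← sum_flip (Finset.univ : Finset (Fin k))]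
    refine Finset.sum_congr rfl (fun x _ => Finset.sum_congr rfl (fun y _ => ?_))
    rw [ip_univ_flip, pw_flip]
  have h2 : ∑ x, ∑ y, (if t < ip R k x y then pw s R k x * pw s R k y else 0) +
      ∑ x, ∑ y, (if t < - ip R k x y then pw s R k x * pw s R k y else 0) +
      ∑ x, ∑ y, (if |ip R k x y| ≤ t then pw s R k x * pw s R k y else 0) = 1 := by
    rw [← Finset.sum_add_distrib, ← Finset.sum_add_distrib]
    have : ∀ x y : Fin k → Fin (2 * R + 1), (if t < ip R k x y then pw s R k x * pw s R k y else 0) +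
        (if t < - ip R k x y then pw s R k x * pw s R k y else 0) +
        (if |ip R k x y| ≤ t then pw s R k x * pw s R k y else 0) = pw s R k x * pw s R k y := by
      intro x y
      rcases lt_trichotomy t (ip R k x y) with h | h | h
      · have a : ¬ t < - ip R k x y := by intro h'; linarith
        have b : ¬ |ip R k x y| ≤ t := by intro h'; have := (abs_le.1 h').2; linarith
        rw [if_pos h, if_neg a, if_neg b]; ring
      · have a : ¬ t < - ip R k x y := by intro h'; linarith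
        have b : |ip R k x y| ≤ t := by rw [← h, abs_of_nonneg ht]
        rw [if_neg (by linarith), if_neg a, if_pos b]; ring
      · by_cases a : t < - ip R k x y
        · have b : ¬ |ip R k x y| ≤ t := by intro h'; have := (abs_le.1 h').1; linarith
          rw [if_neg (by linarith), if_pos a, if_neg b]; ring
        · have b : |ip R k x y| ≤ t := by rw [abs_le]; constructor <;> linarith
          rw [if_neg (by linarith), if_neg a, if_pos b]; ring
    calc _ = ∑ x, ∑ y, pw s R k x * pw s R k y := by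
          refine Finset.sum_congr rfl (fun x _ => ?_)
          rw [← Finset.sum_add_distrib, ← Finset.sum_add_distrib]
          exact Finset.sum_congr rfl (fun y _ => this x y)
      _ = (∑ x, pw s R k x) * ∑ y, pw s R k y := by
          rw [Finset.sum_mul]
          refine Finset.sum_congr rfl (fun x _ => ?_)
          rw [Finset.mul_sum]
      _ = 1 := by rw [sum_pw, one_mul]
  rw [h1] at h2 ⊢
  linarith

/-- squared norm of the sum -/
noncomputable def nsq (R k : ℕ) (x y : Fin k → Fin (2 * R + 1)) : ℝ :=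
  ∑ i, (val R (x i) + val R (y i)) ^ 2

/-- sets without near antipodal pairs are small -/
theorem no_antipodal (s : ℕ) (hs : 1 ≤ s) (k : ℕ) (th : ℝ) (hth : 0 < th)
    (hsk : 4 * Real.sqrt k ≤ th * s) (H : Finset (Fin k → Fin (2 * s + 1)))
    (hH : ∀ x ∈ H, ∀ y ∈ H, 4 * th * (s:ℝ) ^ 2 * Real.sqrt k ≤ nsq s k x y) :
    ∑ x ∈ H, pw s s k x ≤ Real.exp (-(th * Real.sqrt k) / 4) := by
  classical
  have hspos : (0:ℝ) < s := by exact_mod_cast hs
  set H' : Finset (Fin k → Fin (2 * s + 1)) := H.image (flip Finset.univ) with hH'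
  have hinj : Function.Injective (flip (R := s) (k := k) Finset.univ) := by
    intro a b hab
    rw [← flip_flip Finset.univ a, hab, flip_flip]
  have hsum : ∑ y ∈ H', pw s s k y = ∑ y ∈ H, pw s s k y := by
    rw [hH', Finset.sum_image (fun a _ b _ h => hinj h)]
    exact Finset.sum_congr rfl (fun y _ => pw_flip _ _ _ _ _)
  have hdist : ∀ x ∈ H, ∀ y ∈ H', 4 * th * (s:ℝ) ^ 2 * Real.sqrt k ≤ dsq s k x y := by
    intro x hx y hy
    obtain ⟨z, hz, rfl⟩ := Finset.mem_image.1 hy
    have := hH x hx z hz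
    refine this.trans (le_of_eq ?_)
    unfold nsq dsq flip
    refine Finset.sum_congr rfl ?_
    intro i _
    rw [if_pos (Finset.mem_univ i), val_rev]
    ring
  have hiso := iso (s:ℝ) hspos s k _ H H' hdist
  rw [hsum] at hiso
  set p := ∑ x ∈ H, pw s s k x with hp
  have hpnn : 0 ≤ p := Finset.sum_nonneg (fun x _ => (pw_pos _ _ _ _).le)
  have hm : (6/5:ℝ) * s ≤ mass s s := by
    unfold mass
    have hexp : (6 / 10 : ℝ) ≤ Real.exp (-(1/2)) := by
      have h1 : Real.exp (-(1/2)) = 1 / Real.exp (1/2) := by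
        rw [Real.exp_neg]; simp
      rw [h1, le_div_iff₀ (Real.exp_pos _)]
      have h2 : Real.exp (1/2) ^ 2 = Real.exp 1 := by
        rw [← Real.exp_nat_mul]; norm_num
      have h3 := Real.exp_one_lt_d9
      have h4 : Real.exp (1/2) ^ 2 < (1.65:ℝ) ^ 2 := by rw [h2]; norm_num at h3 ⊢; linarith
      have h5 : Real.exp (1/2) < 1.65 := lt_of_pow_lt_pow_left₀ 2 (by norm_num) h4
      linarith
    calc (6/5:ℝ) * s ≤ ∑ j ∈ Icc (-(s : ℤ)) s, (6/10:ℝ) := by
          rw [Finset.sum_const, Int.card_Icc, nsmul_eq_mul]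
          have : (((s:ℤ) + 1 - -(s:ℤ)).toNat : ℤ) = 2 * s + 1 := by omega
          have h2 : (((s:ℤ) + 1 - -(s:ℤ)).toNat : ℝ) = 2 * s + 1 := by exact_mod_cast this
          rw [h2]; linarith
      _ ≤ _ := by
          refine Finset.sum_le_sum ?_
          intro j hj
          rw [Finset.mem_Icc] at hj
          refine hexp.trans ?_
          apply Real.exp_le_exp.2
          rw [le_div_iff₀ (by positivity)]
          have h1 : (j:ℝ) ≤ s := by exact_mod_cast hj.2
          have h2 : -(s:ℝ) ≤ j := by exact_mod_cast hj.1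
          nlinarith
  have hmpos := mass_pos (s:ℝ) s
  have hL : ((mass s s + 1) / mass s s) ^ (2 * k) ≤ Real.exp (2 * k * (5 / (6 * s))) := by
    have h1 : (mass s s + 1) / mass s s ≤ Real.exp (5 / (6 * s)) := by
      have h2 : (mass s s + 1) / mass s s = 1 / mass s s + 1 := by field_simp; ring
      rw [h2]
      refine (add_le_add_left ?_ 1).trans (Real.add_one_le_exp _)
      rw [div_le_div_iff₀ hmpos (by positivity)]
      linarith
    calc ((mass s s + 1) / mass s s) ^ (2 * k) ≤ (Real.exp (5 / (6 * s))) ^ (2 * k) := by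
          apply pow_le_pow_left₀ (by positivity) h1
      _ = _ := by rw [← Real.exp_nat_mul]; push_cast; ring_nf
  have hfin : p * p ≤ Real.exp (-(th * Real.sqrt k) / 4) * Real.exp (-(th * Real.sqrt k) / 4) := by
    refine hiso.trans ?_
    calc _ ≤ Real.exp (2 * k * (5 / (6 * s))) * Real.exp (-(4 * th * (s:ℝ) ^ 2 * Real.sqrt k) / (4 * (s:ℝ) ^ 2)) := by
          gcongr
      _ = Real.exp (2 * k * (5 / (6 * s)) + (-(4 * th * (s:ℝ) ^ 2 * Real.sqrt k) / (4 * (s:ℝ) ^ 2))) := by
          rw [Real.exp_add]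
      _ ≤ Real.exp (-(th * Real.sqrt k) / 4 + -(th * Real.sqrt k) / 4) := by
          apply Real.exp_le_exp.2
          have e1 : (-(4 * th * (s:ℝ) ^ 2 * Real.sqrt k) / (4 * (s:ℝ) ^ 2)) = -(th * Real.sqrt k) := by
            field_simp
          rw [e1]
          have e2 : 2 * k * (5 / (6 * s)) ≤ (5/12) * (th * Real.sqrt k) := by
            have hk : (k:ℝ) = Real.sqrt k * Real.sqrt k := (Real.mul_self_sqrt (Nat.cast_nonneg k)).symm
            have h0 : 0 ≤ Real.sqrt k := Real.sqrt_nonneg _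
            have : 2 * (k:ℝ) * (5 / (6 * s)) = (5 * k) / (3 * s) := by field_simp; ring
            rw [this, div_le_iff₀ (by positivity)]
            calc 5 * (k:ℝ) = (5/4) * Real.sqrt k * (4 * Real.sqrt k) := by nlinarith
              _ ≤ (5/4) * Real.sqrt k * (th * s) := by gcongr
              _ = 5 / 12 * (th * Real.sqrt k) * (3 * s) := by ring
          have h0 : 0 ≤ th * Real.sqrt k := by positivity
          linarith
      _ = _ := by rw [Real.exp_add]
  exact (mul_self_le_mul_self_iff hpnn (Real.exp_pos _).le).2 hfin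

end RTIso
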