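import Mathlib

set_option autoImplicit false

/-!
Gaussian type isoperimetry on a box of the integer lattice, by a discrete one dimensional
inequality (level sets and the sumset bound) and tensorisation.
-/

namespace RTIso

open Finset
open scoped Pointwise

theorem integral_ind (u M : ℝ) (hu : 0 ≤ u) (hM : 0 ≤ M) :
    ∫ t in Set.Ioo 0 M, (if t < u then (1 : ℝ) else 0) = min u M := by
  have h1 : (fun t : ℝ => if t < u then (1 : ℝ) else 0) = Set.indicator (Set.Iio u) (fun _ => (1:ℝ)) := by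
    funext t
    simp [Set.indicator_apply]
  rw [h1, MeasureTheory.setIntegral_indicator measurableSet_Iio]
  have h2 : Set.Ioo 0 M ∩ Set.Iio u = Set.Ioo 0 (min u M) := by
    ext t; simp only [Set.mem_inter_iff, Set.mem_Ioo, Set.mem_Iio, lt_min_iff]; tauto
  rw [h2]
  simp [hu, hM]

theorem integrable_ind (u M : ℝ) :
    MeasureTheory.IntegrableOn (fun t : ℝ => if t < u then (1 : ℝ) else 0) (Set.Ioo 0 M) := by
  have h1 : (fun t : ℝ => if t < u then (1 : ℝ) else 0) = Set.indicator (Set.Iio u) (fun _ => (1:ℝ)) := by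
    funext t
    simp [Set.indicator_apply]
  rw [h1]
  have hc : MeasureTheory.IntegrableOn (fun _ : ℝ => (1:ℝ)) (Set.Ioo 0 M) := by
    simp
  exact MeasureTheory.Integrable.indicator hc measurableSet_Iio

/-- The level set inequality, both suprema equal to `M`. -/
theorem level (A B C : Finset ℤ) (u v w : ℤ → ℝ) (M : ℝ) (hM : 0 < M)
    (hu : ∀ x ∈ A, 0 ≤ u x) (hv : ∀ y ∈ B, 0 ≤ v y) (hw : ∀ t ∈ C, 0 ≤ w t)
    (huM : ∀ x ∈ A, u x ≤ M) (hvM : ∀ y ∈ B, v y ≤ M)
    (x0 : ℤ) (hx0 : x0 ∈ A) (hux0 : u x0 = M) (y0 : ℤ) (hy0 : y0 ∈ B) (hvy0 : v y0 = M)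
    (hC : ∀ x ∈ A, ∀ y ∈ B, x + y ∈ C)
    (h : ∀ x ∈ A, ∀ y ∈ B, u x * v y ≤ w (x + y) ^ 2) :
    ∑ x ∈ A, u x + ∑ y ∈ B, v y ≤ ∑ t ∈ C, w t + M := by
  have key : ∀ t ∈ Set.Ioo 0 M,
      ∑ x ∈ A, (if t < u x then (1 : ℝ) else 0) + ∑ y ∈ B, (if t < v y then (1 : ℝ) else 0) ≤
      ∑ c ∈ C, (if t < w c then (1 : ℝ) else 0) + 1 := by
    intro t ht
    have e1 : ∑ x ∈ A, (if t < u x then (1 : ℝ) else 0) = ((A.filter (fun x => t < u x)).card : ℝ) := by
      simp
    have e2 : ∑ y ∈ B, (if t < v y then (1 : ℝ) else 0) = ((B.filter (fun y => t < v y)).card : ℝ) := by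
      simp
    have e3 : ∑ c ∈ C, (if t < w c then (1 : ℝ) else 0) = ((C.filter (fun c => t < w c)).card : ℝ) := by
      simp
    rw [e1, e2, e3]
    have hA : (A.filter (fun x => t < u x)).Nonempty :=
      ⟨x0, by simp [hx0, hux0, ht.2]⟩
    have hB : (B.filter (fun y => t < v y)).Nonempty :=
      ⟨y0, by simp [hy0, hvy0, ht.2]⟩
    have hs := cauchy_davenport_add_of_linearOrder_isCancelAdd hA hB
    have hsub : (A.filter (fun x => t < u x)) + (B.filter (fun y => t < v y)) ⊆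
        C.filter (fun c => t < w c) := by
      intro c hc
      obtain ⟨x, hx, y, hy, rfl⟩ := Finset.mem_add.1 hc
      rw [Finset.mem_filter] at hx hy ⊢
      refine ⟨hC x hx.1 y hy.1, ?_⟩
      have h1 := h x hx.1 y hy.1
      have h2 : t ^ 2 < u x * v y := by
        have h3 : 0 < t := ht.1
        nlinarith [hx.2, hy.2, mul_pos h3 h3]
      have h4 : 0 ≤ w (x + y) := hw _ (hC x hx.1 y hy.1)
      by_contra hcon
      push Not at hcon
      nlinarith [mul_self_nonneg (w (x+y)), ht.1]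
    have hcard := Finset.card_le_card hsub
    have : (A.filter (fun x => t < u x)).card + (B.filter (fun y => t < v y)).card ≤
        (C.filter (fun c => t < w c)).card + 1 := by omega
    exact_mod_cast this
  have hint := MeasureTheory.setIntegral_mono_on (μ := MeasureTheory.volume) (s := Set.Ioo 0 M)
    (f := fun t => ∑ x ∈ A, (if t < u x then (1 : ℝ) else 0) + ∑ y ∈ B, (if t < v y then (1 : ℝ) else 0))
    (g := fun t => ∑ c ∈ C, (if t < w c then (1 : ℝ) else 0) + 1)
    ?_ ?_ measurableSet_Ioo key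
  · rw [MeasureTheory.integral_add, MeasureTheory.integral_add, MeasureTheory.integral_finsetSum,
      MeasureTheory.integral_finsetSum, MeasureTheory.integral_finsetSum] at hint
    · have f1 : ∀ x ∈ A, ∫ t in Set.Ioo 0 M, (if t < u x then (1 : ℝ) else 0) = u x := by
        intro x hx
        rw [integral_ind _ _ (hu x hx) hM.le, min_eq_left (huM x hx)]
      have f2 : ∀ x ∈ B, ∫ t in Set.Ioo 0 M, (if t < v x then (1 : ℝ) else 0) = v x := by
        intro x hx
        rw [integral_ind _ _ (hv x hx) hM.le, min_eq_left (hvM x hx)]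
      have f3 : ∑ c ∈ C, ∫ t in Set.Ioo 0 M, (if t < w c then (1 : ℝ) else 0) ≤ ∑ c ∈ C, w c := by
        refine Finset.sum_le_sum ?_
        intro c hc
        rw [integral_ind _ _ (hw c hc) hM.le]
        exact min_le_left _ _
      rw [Finset.sum_congr rfl f1, Finset.sum_congr rfl f2] at hint
      have f4 : ∫ _t in Set.Ioo 0 M, (1 : ℝ) = M := by
        simp [hM.le]
      rw [f4] at hint
      linarith
    · intro c _; exact integrable_ind _ _
    · intro c _; exact integrable_ind _ _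
    · intro c _; exact integrable_ind _ _
    · exact MeasureTheory.integrable_finsetSum _ (fun c _ => integrable_ind _ _)
    · simp
    · exact MeasureTheory.integrable_finsetSum _ (fun c _ => integrable_ind _ _)
    · exact MeasureTheory.integrable_finsetSum _ (fun c _ => integrable_ind _ _)
  · exact (MeasureTheory.integrable_finsetSum _ (fun c _ => integrable_ind _ _)).add
      (MeasureTheory.integrable_finsetSum _ (fun c _ => integrable_ind _ _))
  · exact (MeasureTheory.integrable_finsetSum _ (fun c _ => integrable_ind _ _)).add (by simp)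

/-- One dimensional inequality. -/
theorem one_dim (A B C : Finset ℤ) (u v w : ℤ → ℝ) (W : ℝ) (hW : 0 ≤ W)
    (hu : ∀ x ∈ A, 0 ≤ u x) (hv : ∀ y ∈ B, 0 ≤ v y) (hw : ∀ t ∈ C, 0 ≤ w t)
    (hwW : ∀ t ∈ C, w t ≤ W)
    (hC : ∀ x ∈ A, ∀ y ∈ B, x + y ∈ C)
    (h : ∀ x ∈ A, ∀ y ∈ B, u x * v y ≤ w (x + y) ^ 2) :
    4 * ((∑ x ∈ A, u x) * ∑ y ∈ B, v y) ≤ (∑ t ∈ C, w t + W) ^ 2 := by
  have hwsum : 0 ≤ ∑ t ∈ C, w t := Finset.sum_nonneg hw
  have hus : 0 ≤ ∑ x ∈ A, u x := Finset.sum_nonneg hu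
  have hvs : 0 ≤ ∑ x ∈ B, v x := Finset.sum_nonneg hv
  rcases eq_or_lt_of_le hus with h0 | hupos
  · rw [← h0]; simp only [zero_mul, mul_zero]; positivity
  rcases eq_or_lt_of_le hvs with h0 | hvpos
  · rw [← h0]; simp only [mul_zero]; positivity
  have hAne : A.Nonempty := by
    by_contra hcon
    rw [Finset.not_nonempty_iff_eq_empty] at hcon
    rw [hcon] at hupos; simp at hupos
  have hBne : B.Nonempty := by
    by_contra hcon
    rw [Finset.not_nonempty_iff_eq_empty] at hcon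
    rw [hcon] at hvpos; simp at hvpos
  obtain ⟨x0, hx0, hx0m⟩ := Finset.exists_max_image A u hAne
  obtain ⟨y0, hy0, hy0m⟩ := Finset.exists_max_image B v hBne
  have ha : 0 < u x0 := by
    by_contra hcon
    push Not at hcon
    have : ∑ x ∈ A, u x ≤ 0 := Finset.sum_nonpos (fun x hx => (hx0m x hx).trans hcon)
    linarith
  have hb : 0 < v y0 := by
    by_contra hcon
    push Not at hcon
    have : ∑ x ∈ B, v x ≤ 0 := Finset.sum_nonpos (fun x hx => (hy0m x hx).trans hcon)
    linarith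
  set a := u x0 with had
  set b := v y0 with hbd
  set lam := Real.sqrt (b / a) with hlam
  have hlampos : 0 < lam := Real.sqrt_pos.2 (by positivity)
  have hlam2 : lam ^ 2 = b / a := Real.sq_sqrt (by positivity)
  set M := lam * a with hMd
  have hMpos : 0 < M := by positivity
  have hM' : b / lam = M := by
    rw [hMd, div_eq_iff hlampos.ne']
    have : lam * a * lam = lam ^ 2 * a := by ring
    rw [this, hlam2]; field_simp
  have hM2 : M ^ 2 = a * b := by
    rw [hMd, mul_pow, hlam2]; field_simp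
  have hlev := level A B C (fun x => lam * u x) (fun y => v y / lam) w M hMpos
    (fun x hx => mul_nonneg hlampos.le (hu x hx)) (fun y hy => div_nonneg (hv y hy) hlampos.le) hw
    (fun x hx => by
      have := hx0m x hx
      show lam * u x ≤ lam * a
      exact mul_le_mul_of_nonneg_left this hlampos.le)
    (fun y hy => by
      have := hy0m y hy
      show v y / lam ≤ M
      rw [← hM']
      exact div_le_div_of_nonneg_right this hlampos.le)
    x0 hx0 rfl y0 hy0 hM' hC
    (fun x hx y hy => by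
      have := h x hx y hy
      have e : lam * u x * (v y / lam) = u x * v y := by field_simp
      simpa [e] using this)
  have hMW : M ≤ W := by
    have h1 := h x0 hx0 y0 hy0
    have h2 := hwW _ (hC x0 hx0 y0 hy0)
    have h3 := hw _ (hC x0 hx0 y0 hy0)
    have h4 : M ^ 2 ≤ W ^ 2 := by
      rw [hM2]
      calc a * b ≤ w (x0 + y0) ^ 2 := h1
        _ ≤ W ^ 2 := by gcongr
    exact (pow_le_pow_iff_left₀ hMpos.le hW two_ne_zero).1 h4
  rw [← Finset.mul_sum, ← Finset.sum_div] at hlev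
  have hfin : lam * ∑ x ∈ A, u x + (∑ y ∈ B, v y) / lam ≤ ∑ t ∈ C, w t + W := by linarith
  have hprod : (lam * ∑ x ∈ A, u x) * ((∑ y ∈ B, v y) / lam) = (∑ x ∈ A, u x) * ∑ y ∈ B, v y := by
    field_simp
  rw [← hprod]
  set p := lam * ∑ x ∈ A, u x
  set q := (∑ y ∈ B, v y) / lam
  have hp : 0 ≤ p := by positivity
  have hq : 0 ≤ q := by positivity
  have : (p + q) ^ 2 ≤ (∑ t ∈ C, w t + W) ^ 2 := by gcongr
  nlinarith [sq_nonneg (p - q)]

/-- unnormalised mass of the discrete Gaussian on the box -/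
noncomputable def mass (s : ℝ) (R : ℕ) : ℝ :=
  ∑ j ∈ Icc (-(R : ℤ)) R, Real.exp (-(j : ℝ) ^ 2 / (2 * s ^ 2))

theorem Icc_succ (R : ℕ) : Icc (-((R + 1 : ℕ) : ℤ)) ((R + 1 : ℕ) : ℤ) =
    insert (-((R : ℤ) + 1)) (insert ((R : ℤ) + 1) (Icc (-(R : ℤ)) R)) := by
  ext x
  simp only [Finset.mem_Icc, Finset.mem_insert]
  push_cast
  omega

theorem sum_Icc_succ (R : ℕ) (f : ℤ → ℝ) :
    ∑ j ∈ Icc (-((R + 1 : ℕ) : ℤ)) ((R + 1 : ℕ) : ℤ), f j =
      f (-((R : ℤ) + 1)) + f ((R : ℤ) + 1) + ∑ j ∈ Icc (-(R : ℤ)) R, f j := by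
  rw [Icc_succ, Finset.sum_insert, Finset.sum_insert]
  · ring
  · simp
  · simp only [Finset.mem_insert, Finset.mem_Icc]; omega

theorem double_sum (s : ℝ) (hs : 0 < s) (R : ℕ) :
    ∑ t ∈ Icc (-((2 * R : ℕ) : ℤ)) ((2 * R : ℕ) : ℤ), Real.exp (-(t : ℝ) ^ 2 / (8 * s ^ 2)) +
      2 * Real.exp (-(2 * R + 1 : ℝ) ^ 2 / (8 * s ^ 2)) ≤ 2 * mass s R + 1 := by
  induction R with
  | zero =>
    simp only [mass]
    have h1 : Real.exp (-1 / (8 * s ^ 2)) ≤ 1 := by
      rw [Real.exp_le_one_iff]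
      apply div_nonpos_of_nonpos_of_nonneg
      · norm_num
      · positivity
    have h2 : (-(2 * ((0:ℕ):ℝ) + 1) ^ 2 / (8 * s ^ 2)) = -1 / (8 * s ^ 2) := by
      norm_num
    rw [h2]
    simp
    linarith
  | succ R ih =>
    have e1 : (2 * (R + 1) : ℕ) = (2 * R + 1) + 1 := by ring
    rw [e1, sum_Icc_succ, sum_Icc_succ]
    have e2 : mass s (R + 1) = 2 * Real.exp (-((R : ℝ) + 1) ^ 2 / (2 * s ^ 2)) + mass s R := by
      unfold mass
      rw [sum_Icc_succ]
      push_cast
      have : (-((R:ℝ)) + -1) ^ 2 = ((R:ℝ) + 1) ^ 2 := by ring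
      have h2 : (-((R:ℝ) + 1)) ^ 2 = ((R:ℝ) + 1) ^ 2 := by ring
      rw [h2]
      ring
    rw [e2]
    have m1 : Real.exp (-(2 * ((R : ℝ) + 1)) ^ 2 / (8 * s ^ 2)) = Real.exp (-((R : ℝ) + 1) ^ 2 / (2 * s ^ 2)) := by
      congr 1
      field_simp
      ring
    have m2 : Real.exp (-(2 * ((R : ℝ) + 1) + 1) ^ 2 / (8 * s ^ 2)) ≤
        Real.exp (-(2 * ((R : ℝ) + 1)) ^ 2 / (8 * s ^ 2)) := by
      apply Real.exp_le_exp.2
      apply div_le_div_of_nonneg_right _ (by positivity)
      have : (0:ℝ) ≤ R := Nat.cast_nonneg R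
      nlinarith
    rw [← m1]
    push_cast at ih ⊢
    have h3 : (-(2 * (R:ℝ) + 1)) ^ 2 = (2 * (R:ℝ) + 1) ^ 2 := by ring
    have h4 : (-(2 * (R:ℝ) + 1 + 1)) ^ 2 = (2 * ((R:ℝ) + 1)) ^ 2 := by ring
    have h5 : (2 * (R:ℝ) + 1 + 1) ^ 2 = (2 * ((R:ℝ) + 1)) ^ 2 := by ring
    rw [h3, h4, h5]
    linarith

/-- transport property of a finite weighted space with a cost -/
def TP {α : Type*} [Fintype α] (c : α → α → ℝ) (q : α → ℝ) (L : ℝ) : Prop :=
  ∀ (K : ℝ) (F G : α → ℝ), 0 ≤ K → (∀ x, 0 ≤ F x) → (∀ x, 0 ≤ G x) →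
    (∀ x y, F x * G y ≤ K * Real.exp (c x y)) →
    (∑ x, F x * q x) * (∑ y, G y * q y) ≤ K * L

/-- tensorisation -/
theorem TP.pi {α : Type*} [Fintype α] {c : α → α → ℝ} {q : α → ℝ} {L : ℝ}
    (hq : ∀ x, 0 ≤ q x) (hL : 0 ≤ L) (h : TP c q L) :
    ∀ k : ℕ, TP (α := Fin k → α) (fun x y => ∑ i, c (x i) (y i)) (fun x => ∏ i, q (x i)) (L ^ k) := by
  intro k
  induction k with
  | zero =>
    intro K F G hK hF hG hFG
    simp only [Finset.univ_unique, Finset.univ_eq_empty, Finset.prod_empty, mul_one,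
      Finset.sum_singleton, pow_zero]
    simpa using hFG default default
  | succ k ih =>
    intro K F G hK hF hG hFG
    have split : ∀ H : (Fin (k + 1) → α) → ℝ,
        ∑ x, H x * ∏ i, q (x i) =
          ∑ x' : Fin k → α, (∑ a, H (Fin.cons a x') * q a) * ∏ i, q (x' i) := by
      intro H
      rw [← (Fin.consEquiv (fun _ : Fin (k+1) => α)).sum_comp]
      rw [Fintype.sum_prod_type_right]
      refine Finset.sum_congr rfl ?_
      intro x' _
      rw [Finset.sum_mul]
      refine Finset.sum_congr rfl ?_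
      intro a _
      simp only [Fin.consEquiv, Equiv.coe_fn_mk, Fin.prod_univ_succ, Fin.cons_zero, Fin.cons_succ]
      ring
    rw [split, split]
    rw [pow_succ, mul_comm (L ^ k) L, ← mul_assoc]
    apply ih (K * L)
    · positivity
    · intro x'; exact Finset.sum_nonneg (fun a _ => mul_nonneg (hF _) (hq a))
    · intro x'; exact Finset.sum_nonneg (fun a _ => mul_nonneg (hG _) (hq a))
    · intro x' y'
      have := h (K * Real.exp (∑ i, c (x' i) (y' i))) (fun a => F (Fin.cons a x')) (fun a => G (Fin.cons a y'))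
        (by positivity) (fun _ => hF _) (fun _ => hG _) (by
          intro a b
          have := hFG (Fin.cons a x') (Fin.cons b y')
          beta_reduce at this
          rw [Fin.sum_univ_succ] at this
          simp only [Fin.cons_zero, Fin.cons_succ] at this
          rw [Real.exp_add] at this
          calc _ ≤ _ := this
            _ = _ := by ring)
      calc _ ≤ _ := this
        _ = _ := by ring

/-- the real value of a point of the interval of length `2 R + 1` -/
def val (R : ℕ) (x : Fin (2 * R + 1)) : ℝ := (x : ℝ) - R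

/-- Gaussian weight -/
noncomputable def gw (s : ℝ) (R : ℕ) (x : Fin (2 * R + 1)) : ℝ :=
  Real.exp (-(val R x) ^ 2 / (2 * s ^ 2))

theorem sum_Fin (R : ℕ) (f : ℤ → ℝ) :
    ∑ x : Fin (2 * R + 1), f ((x : ℤ) - R) = ∑ j ∈ Icc (-(R : ℤ)) R, f j := by
  refine Finset.sum_bij (fun x _ => ((x : ℕ) : ℤ) - R) ?_ ?_ ?_ ?_
  · intro x _
    have := x.2
    rw [Finset.mem_Icc]; omega
  · intro x _ y _ h
    have : (x : ℕ) = y := by omega
    exact Fin.ext this
  · intro j hj
    rw [Finset.mem_Icc] at hj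
    refine ⟨⟨(j + R).toNat, by omega⟩, Finset.mem_univ _, ?_⟩
    simp only
    omega
  · intro x _
    rfl

theorem sum_gw (s : ℝ) (R : ℕ) : ∑ x, gw s R x = mass s R := by
  have := sum_Fin R (fun j => Real.exp (-(j : ℝ) ^ 2 / (2 * s ^ 2)))
  unfold mass
  rw [← this]
  refine Finset.sum_congr rfl ?_
  intro x _
  unfold gw val
  push_cast
  rfl

theorem TP_line (s : ℝ) (hs : 0 < s) (R : ℕ) :
    TP (fun x y : Fin (2 * R + 1) => (val R x - val R y) ^ 2 / (4 * s ^ 2)) (gw s R)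
      ((mass s R + 1) ^ 2) := by
  intro K F G hK hF hG hFG
  set D : Finset ℤ := Icc (-(R : ℤ)) R with hD
  set C : Finset ℤ := Icc (-((2 * R : ℕ) : ℤ)) ((2 * R : ℕ) : ℤ) with hC
  let ext (H : Fin (2 * R + 1) → ℝ) : ℤ → ℝ := fun j =>
    if h : (j + R).toNat < 2 * R + 1 then H ⟨(j + R).toNat, h⟩ else 0
  have ext_eq : ∀ (H : Fin (2 * R + 1) → ℝ) (x : Fin (2 * R + 1)), ext H (((x : ℕ) : ℤ) - R) = H x := by
    intro H x
    have hx := x.2
    have h1 : ((((x : ℕ) : ℤ) - R) + R).toNat = x := by omega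
    simp only [ext]
    rw [dif_pos (by rw [h1]; exact hx)]
    congr 1
    exact Fin.ext h1
  have sumF : ∀ H : Fin (2 * R + 1) → ℝ, ∑ x, H x * gw s R x =
      ∑ j ∈ D, ext H j * Real.exp (-(j : ℝ) ^ 2 / (2 * s ^ 2)) := by
    intro H
    rw [hD, ← sum_Fin R (fun j => ext H j * Real.exp (-(j : ℝ) ^ 2 / (2 * s ^ 2)))]
    refine Finset.sum_congr rfl ?_
    intro x _
    rw [ext_eq]
    unfold gw val
    push_cast
    rfl
  have ext_nn : ∀ H : Fin (2 * R + 1) → ℝ, (∀ x, 0 ≤ H x) → ∀ j, 0 ≤ ext H j := by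
    intro H hH j
    simp only [ext]
    split_ifs
    · exact hH _
    · exact le_rfl
  rw [sumF, sumF]
  have hsq : (0:ℝ) ≤ Real.sqrt K := Real.sqrt_nonneg K
  have hsq2 : Real.sqrt K ^ 2 = K := Real.sq_sqrt hK
  have main := one_dim D D C (fun j => ext F j * Real.exp (-(j : ℝ) ^ 2 / (2 * s ^ 2)))
    (fun j => ext G j * Real.exp (-(j : ℝ) ^ 2 / (2 * s ^ 2)))
    (fun t => Real.sqrt K * Real.exp (-(t : ℝ) ^ 2 / (8 * s ^ 2))) (Real.sqrt K) hsq
    (fun x _ => mul_nonneg (ext_nn F hF x) (Real.exp_pos _).le)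
    (fun x _ => mul_nonneg (ext_nn G hG x) (Real.exp_pos _).le)
    (fun x _ => mul_nonneg hsq (Real.exp_pos _).le)
    (fun x _ => by
      have : Real.exp (-(x : ℝ) ^ 2 / (8 * s ^ 2)) ≤ 1 := by
        rw [Real.exp_le_one_iff]
        apply div_nonpos_of_nonpos_of_nonneg
        · nlinarith [sq_nonneg (x : ℝ)]
        · positivity
      calc Real.sqrt K * Real.exp (-(x : ℝ) ^ 2 / (8 * s ^ 2)) ≤ Real.sqrt K * 1 := by gcongr
        _ = Real.sqrt K := mul_one _)
    (fun x hx y hy => by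
      rw [hD, Finset.mem_Icc] at hx hy
      rw [hC, Finset.mem_Icc]
      push_cast
      omega)
    (fun x hx y hy => by
      rw [hD, Finset.mem_Icc] at hx hy
      have hxl : (x + R).toNat < 2 * R + 1 := by omega
      have hyl : (y + R).toNat < 2 * R + 1 := by omega
      have ex : ext F x = F ⟨(x + R).toNat, hxl⟩ := by simp only [ext]; rw [dif_pos hxl]
      have ey : ext G y = G ⟨(y + R).toNat, hyl⟩ := by simp only [ext]; rw [dif_pos hyl]
      rw [ex, ey]
      have h1 := hFG ⟨(x + R).toNat, hxl⟩ ⟨(y + R).toNat, hyl⟩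
      have vx : val R ⟨(x + R).toNat, hxl⟩ = (x : ℝ) := by
        unfold val
        have : (((x + R).toNat : ℤ)) = x + R := by omega
        have h2 : (((x + R).toNat : ℕ) : ℝ) = (x : ℝ) + R := by exact_mod_cast this
        simp only [h2]; ring
      have vy : val R ⟨(y + R).toNat, hyl⟩ = (y : ℝ) := by
        unfold val
        have : (((y + R).toNat : ℤ)) = y + R := by omega
        have h2 : (((y + R).toNat : ℕ) : ℝ) = (y : ℝ) + R := by exact_mod_cast this
        simp only [h2]; ring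
      beta_reduce at h1
      rw [vx, vy] at h1
      calc F _ * Real.exp (-(x:ℝ) ^ 2 / (2 * s ^ 2)) * (G _ * Real.exp (-(y:ℝ) ^ 2 / (2 * s ^ 2)))
          = (F ⟨(x + R).toNat, hxl⟩ * G ⟨(y + R).toNat, hyl⟩) *
            (Real.exp (-(x:ℝ) ^ 2 / (2 * s ^ 2)) * Real.exp (-(y:ℝ) ^ 2 / (2 * s ^ 2))) := by ring
        _ ≤ (K * Real.exp (((x:ℝ) - y) ^ 2 / (4 * s ^ 2))) *
            (Real.exp (-(x:ℝ) ^ 2 / (2 * s ^ 2)) * Real.exp (-(y:ℝ) ^ 2 / (2 * s ^ 2))) := by
            gcongr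
        _ = (Real.sqrt K * Real.exp (-((x + y : ℤ) : ℝ) ^ 2 / (8 * s ^ 2))) ^ 2 := by
            rw [mul_pow, hsq2, mul_assoc, ← Real.exp_add, ← Real.exp_add, ← Real.exp_nat_mul]
            congr 2
            push_cast
            field_simp
            ring)
  have hd := double_sum s hs R
  have hpos : 0 ≤ 2 * Real.exp (-(2 * R + 1 : ℝ) ^ 2 / (8 * s ^ 2)) := by positivity
  have hsum : ∑ t ∈ C, Real.sqrt K * Real.exp (-(t : ℝ) ^ 2 / (8 * s ^ 2)) + Real.sqrt K ≤
      Real.sqrt K * (2 * (mass s R + 1)) := by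
    rw [← Finset.mul_sum]
    have : ∑ t ∈ C, Real.exp (-(t : ℝ) ^ 2 / (8 * s ^ 2)) ≤ 2 * mass s R + 1 := by
      rw [hC]; linarith
    nlinarith
  have hnn : 0 ≤ ∑ t ∈ C, Real.sqrt K * Real.exp (-(t : ℝ) ^ 2 / (8 * s ^ 2)) + Real.sqrt K := by
    have : 0 ≤ ∑ t ∈ C, Real.sqrt K * Real.exp (-(t : ℝ) ^ 2 / (8 * s ^ 2)) :=
      Finset.sum_nonneg (fun x _ => mul_nonneg hsq (Real.exp_pos _).le)
    linarith
  have h2 : (∑ t ∈ C, Real.sqrt K * Real.exp (-(t : ℝ) ^ 2 / (8 * s ^ 2)) + Real.sqrt K) ^ 2 ≤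
      (Real.sqrt K * (2 * (mass s R + 1))) ^ 2 := by gcongr
  have h3 : (Real.sqrt K * (2 * (mass s R + 1))) ^ 2 = 4 * (K * (mass s R + 1) ^ 2) := by
    rw [mul_pow, hsq2]; ring
  rw [h3] at h2
  linarith

/-- Euclidean distance squared on the box -/
noncomputable def dsq (R k : ℕ) (x y : Fin k → Fin (2 * R + 1)) : ℝ :=
  ∑ i, (val R (x i) - val R (y i)) ^ 2

/-- the normalised product weight -/
noncomputable def pw (s : ℝ) (R k : ℕ) (x : Fin k → Fin (2 * R + 1)) : ℝ :=
  ∏ i, gw s R (x i) / mass s R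

theorem mass_pos (s : ℝ) (R : ℕ) : 0 < mass s R := by
  unfold mass
  apply Finset.sum_pos
  · intro i _; positivity
  · exact ⟨0, by simp⟩

theorem pw_pos (s : ℝ) (R k : ℕ) (x : Fin k → Fin (2 * R + 1)) : 0 < pw s R k x := by
  unfold pw
  apply Finset.prod_pos
  intro i _
  exact div_pos (Real.exp_pos _) (mass_pos s R)

theorem sum_pw (s : ℝ) (R k : ℕ) : ∑ x, pw s R k x = 1 := by
  unfold pw
  have h := Finset.prod_univ_sum (fun _ : Fin k => (Finset.univ : Finset (Fin (2 * R + 1))))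
    (fun _ x => gw s R x / mass s R)
  rw [Fintype.piFinset_univ] at h
  rw [← h]
  simp [← Finset.sum_div, sum_gw, (mass_pos s R).ne']

/-- Two sets at distance at least `sqrt rho` in the box. -/
theorem iso (s : ℝ) (hs : 0 < s) (R k : ℕ) (rho : ℝ) (H H' : Finset (Fin k → Fin (2 * R + 1)))
    (hH : ∀ x ∈ H, ∀ y ∈ H', rho ≤ dsq R k x y) :
    (∑ x ∈ H, pw s R k x) * (∑ y ∈ H', pw s R k y) ≤
      ((mass s R + 1) / mass s R) ^ (2 * k) * Real.exp (-rho / (4 * s ^ 2)) := by
  classical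
  have hm := mass_pos s R
  have htp := (TP_line s hs R).pi (fun x => (Real.exp_pos _).le) (by positivity) k
  have := htp (Real.exp (-rho / (4 * s ^ 2))) (fun x => if x ∈ H then 1 else 0)
    (fun x => if x ∈ H' then 1 else 0) (Real.exp_pos _).le
    (fun x => by split_ifs <;> norm_num) (fun x => by split_ifs <;> norm_num) (by
      intro x y
      beta_reduce
      by_cases h1 : x ∈ H
      · by_cases h2 : y ∈ H'
        · rw [if_pos h1, if_pos h2, ← Real.exp_add, ← Finset.sum_div]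
          have h3 := hH x h1 y h2
          unfold dsq at h3
          rw [mul_one]
          apply Real.one_le_exp
          have : -rho / (4 * s ^ 2) + (∑ i, (val R (x i) - val R (y i)) ^ 2) / (4 * s ^ 2) =
            ((∑ i, (val R (x i) - val R (y i)) ^ 2) - rho) / (4 * s ^ 2) := by ring
          rw [this]
          apply div_nonneg
          · linarith
          · positivity
        · rw [if_neg h2]; simp only [mul_zero]; positivity
      · rw [if_neg h1]; simp only [zero_mul]; positivity)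
  have e1 : ∀ (H : Finset (Fin k → Fin (2 * R + 1))), ∑ x ∈ H, pw s R k x =
      (∑ x, (if x ∈ H then (1:ℝ) else 0) * ∏ i, gw s R (x i)) / mass s R ^ k := by
    intro H
    rw [Finset.sum_div]
    rw [← Finset.sum_filter_add_sum_filter_not Finset.univ (fun x => x ∈ H)]
    have z : ∑ x with x ∉ H, (if x ∈ H then (1:ℝ) else 0) * ∏ i, gw s R (x i) / mass s R ^ k = 0 := by
      apply Finset.sum_eq_zero
      intro x hx
      rw [Finset.mem_filter] at hx
      rw [if_neg hx.2]; simp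
    have f : Finset.univ.filter (fun x => x ∈ H) = H := by ext x; simp
    rw [show (∑ x with x ∉ H, ((if x ∈ H then (1:ℝ) else 0) * ∏ i, gw s R (x i)) / mass s R ^ k) = 0 by
      apply Finset.sum_eq_zero
      intro x hx
      rw [Finset.mem_filter] at hx
      rw [if_neg hx.2]; simp]
    rw [f, add_zero]
    refine Finset.sum_congr rfl ?_
    intro x hx
    rw [if_pos hx, one_mul]
    unfold pw
    rw [Finset.prod_div_distrib]
    simp
  rw [e1, e1]
  rw [div_mul_div_comm, ← pow_add, ← two_mul]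
  rw [div_pow, div_mul_eq_mul_div]
  apply div_le_div_of_nonneg_right _ (by positivity)
  calc _ ≤ _ := this
    _ = _ := by rw [← pow_mul, mul_comm]

end RTIso
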